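import Pool.Agent.H534R3.XApp
import Pool.Agent.H534R3.YA
import Pool.Agent.H534R3.PiThree

/-!
# Differences of the sets of normal polynomials for two bases

For multiplicatively independent integers `a, b > 1` and every `k`, the set of the real polynomials
`g` of degree at most `k` for which `g(n) a ^ n` is uniformly distributed modulo one and
`g(n) b ^ n` is not is complete for the class of the differences of two sets of the third
multiplicative class.  The same holds for real bases.
-/

set_option autoImplicit false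

open Filter Topology

namespace Pool.Agent.Results.MP_df8ac3_lc.PolynomialDifferences

/-- The sequence `x` is uniformly distributed modulo one: for `0 ≤ u < v ≤ 1` the proportion of the
`n < N` with fractional part of `x n` in `[u, v)` tends to `v - u`. -/
def IsUD (x : ℕ → ℝ) : Prop := ∀ u v : ℝ, 0 ≤ u → u < v → v ≤ 1 →
  Tendsto
    (fun N : ℕ =>
      (((Finset.range N).filter (fun n => u ≤ Int.fract (x n) ∧ Int.fract (x n) < v)).card : ℝ)
        / (N : ℝ))
    atTop (nhds (v - u))

/-- The value at `n` of the polynomial of degree at most `k` with coefficient vector `c`. -/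
def val {k : ℕ} (c : Fin (k + 1) → ℝ) (n : ℕ) : ℝ := ∑ i : Fin (k + 1), c i * (n : ℝ) ^ (i : ℕ)

/-- `𝒩_{α,k}`: the polynomials `g` of degree at most `k` (coefficient vectors in `ℝ^{k+1}`) such that
`g(n) α ^ n` is uniformly distributed modulo one. -/
def NormalPoly (α : ℝ) (k : ℕ) : Set (Fin (k + 1) → ℝ) := {c | IsUD (fun n => val c n * α ^ n)}

/-- `A` is a countable intersection of countable unions of closed sets (the class `Π⁰₃`). -/
def IsPiThree {X : Type} [TopologicalSpace X] (A : Set X) : Prop :=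
  ∃ F : ℕ → ℕ → Set X, (∀ i j, IsClosed (F i j)) ∧ A = ⋂ i, ⋃ j, F i j

/-- `D` is in the class `D₂(Π⁰₃)`: the difference of two `Π⁰₃` sets. -/
def IsDTwo {X : Type} [TopologicalSpace X] (D : Set X) : Prop :=
  ∃ A B : Set X, IsPiThree A ∧ IsPiThree B ∧ D = A \ B

/-- `D` is `D₂(Π⁰₃)`-complete: it belongs to the class and its complement does not. -/
def IsDTwoComplete {X : Type} [TopologicalSpace X] (D : Set X) : Prop :=
  IsDTwo D ∧ ¬ IsDTwo Dᶜ

/-- `a` and `b` are multiplicatively independent. -/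
def MulIndep (a b : ℕ) : Prop := ∀ m n : ℕ, 0 < m → 0 < n → a ^ m ≠ b ^ n

theorem isUD_iff (x : ℕ → ℝ) : IsUD x ↔ Pool.Agent.H534R3.UDist.UD x := by
  constructor
  · intro h s t hs hst ht
    rcases hst.eq_or_lt with rfl | hst
    · have h1 : ∀ N : ℕ, (((Finset.range N).filter
          (fun n => s ≤ Int.fract (x n) ∧ Int.fract (x n) < s)).card : ℝ) / (N : ℝ) = 0 := by
        intro N
        rw [Finset.filter_false_of_mem]
        · simp
        · intro n _ hn
          exact absurd hn.2 (not_lt.2 hn.1)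
      rw [sub_self]
      refine Tendsto.congr (fun N => (h1 N).symm) tendsto_const_nhds
    · exact h s t hs hst ht
  · intro h u v hu huv hv
    exact h u v hu huv.le hv

theorem piThree_preimage {X Y : Type} [TopologicalSpace X] [TopologicalSpace Y] {f : X → Y}
    (hf : Continuous f) {A : Set Y} (hA : IsPiThree A) : IsPiThree (f ⁻¹' A) := by
  obtain ⟨F, hF, rfl⟩ := hA
  refine ⟨fun i j => f ⁻¹' F i j, fun i j => (hF i j).preimage hf, ?_⟩
  simp only [Set.preimage_iInter, Set.preimage_iUnion]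

theorem continuous_val {k : ℕ} (n : ℕ) : Continuous fun c : Fin (k + 1) → ℝ => val c n := by
  unfold val
  fun_prop

theorem piThree_normalPoly (α : ℝ) (k : ℕ) : IsPiThree (NormalPoly α k) := by
  obtain ⟨F, hF, hFe⟩ := Pool.Agent.H534R3.UDist.ud_piThree
    (fun (c : Fin (k + 1) → ℝ) (n : ℕ) => val c n * α ^ n)
    (fun n => (continuous_val n).mul continuous_const)
  refine ⟨F, hF, ?_⟩
  rw [← hFe]
  ext c
  exact isUD_iff _

/-- the constant polynomial -/
def cst (k : ℕ) (ξ : ℝ) : Fin (k + 1) → ℝ := fun i => if (i : ℕ) = 0 then ξ else 0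

theorem continuous_cst (k : ℕ) : Continuous (cst k) := by
  refine continuous_pi fun i => ?_
  unfold cst
  split_ifs
  · exact continuous_id
  · exact continuous_const

theorem val_cst (k : ℕ) (ξ : ℝ) (n : ℕ) : val (cst k ξ) n = ξ := by
  unfold val cst
  rw [Fin.sum_univ_succ]
  simp

theorem cst_mem (α : ℝ) (k : ℕ) (ξ : ℝ) :
    cst k ξ ∈ NormalPoly α k ↔ Pool.Agent.H534R3.UDist.UD (fun n => ξ * α ^ n) := by
  show IsUD (fun n => val (cst k ξ) n * α ^ n) ↔ _
  simp only [val_cst]
  exact isUD_iff _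

/-- Completeness from a reduction. -/
theorem complete_of_reduction (α β : ℝ) (k : ℕ) (G : (ℕ → ℕ) → ℝ) (hG : Continuous G)
    (hGw : ∀ w, (Pool.Agent.H534R3.UDist.UD (fun n => G w * α ^ n) ∧
        ¬ Pool.Agent.H534R3.UDist.UD (fun n => G w * β ^ n)) ↔
      ((∀ e, ∃ J, ∀ j, J ≤ j → Pool.Agent.H534R3.Rota.ty j = true → e ≤ w j) ∧
        ¬ (∀ e, ∃ J, ∀ j, J ≤ j → Pool.Agent.H534R3.Rota.ty j = false → e ≤ w j))) :
    IsDTwoComplete (NormalPoly α k \ NormalPoly β k) := by
  refine ⟨⟨_, _, piThree_normalPoly α k, piThree_normalPoly β k, rfl⟩, ?_⟩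
  rintro ⟨A, B, hA, hB, hAB⟩
  have hg : Continuous fun w => cst k (G w) := (continuous_cst k).comp hG
  obtain ⟨F, hF, hFe⟩ := piThree_preimage hg hA
  obtain ⟨F', hF', hFe'⟩ := piThree_preimage hg hB
  refine Pool.Agent.H534R3.Rota.no_dual
    (fun w t => ∀ e, ∃ J, ∀ j, J ≤ j → Pool.Agent.H534R3.Rota.ty j = t → e ≤ w j)
    (fun w t => Iff.rfl) F F' hF hF' ?_
  rw [← hFe, ← hFe', ← Set.preimage_sdiff, ← hAB, Set.preimage_compl]
  congr 1
  ext w
  rw [Set.mem_preimage, Set.mem_sdiff, cst_mem, cst_mem]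
  exact (hGw w).symm

theorem complete_irrational (α β : ℝ) (hα : 1 < |α|) (hβ : 1 < |β|)
    (hr : Irrational (Real.log |α| / Real.log |β|)) (k : ℕ) :
    IsDTwoComplete (NormalPoly α k \ NormalPoly β k) := by
  obtain ⟨g, hg, hga, hgb⟩ := Pool.Agent.H534R3.Rota.reduce_two_real α β hα hβ hr
  refine complete_of_reduction α β k g hg fun w => ?_
  rw [hga, hgb]

theorem irrational_of_mulIndep {a b : ℕ} (ha : 1 < a) (hb : 1 < b) (h : MulIndep a b) :
    Irrational (Real.log |(a : ℝ)| / Real.log |(b : ℝ)|) := by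
  have ha' : (1 : ℝ) < a := by exact_mod_cast ha
  have hb' : (1 : ℝ) < b := by exact_mod_cast hb
  rw [abs_of_pos (by linarith), abs_of_pos (by linarith)]
  have hla : 0 < Real.log a := Real.log_pos ha'
  have hlb : 0 < Real.log b := Real.log_pos hb'
  rintro ⟨q, hq⟩
  have hq0 : 0 < (q : ℝ) := by rw [hq]; positivity
  have hq1 : 0 < q := by exact_mod_cast hq0
  have hnum : 0 < q.num := Rat.num_pos.2 hq1
  obtain ⟨m, hm⟩ := Int.eq_ofNat_of_zero_le hnum.le
  have hm0 : 0 < m := by omega
  have hqe : (q : ℝ) = (m : ℝ) / (q.den : ℝ) := by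
    have h1 : (q : ℝ) = ((q.num : ℤ) : ℝ) / ((q.den : ℕ) : ℝ) := by
      exact_mod_cast (Rat.num_div_den q).symm
    rw [h1, hm]
    simp
  have hden : (0 : ℝ) < q.den := by exact_mod_cast q.pos
  have h1 : (q.den : ℝ) * Real.log a = (m : ℝ) * Real.log b := by
    rw [hqe, div_eq_div_iff hden.ne' hlb.ne'] at hq
    linarith
  have h2 : Real.log ((a : ℝ) ^ q.den) = Real.log ((b : ℝ) ^ m) := by
    rw [Real.log_pow, Real.log_pow, h1]
  have h3 : ((a : ℝ) ^ q.den) = ((b : ℝ) ^ m) :=
    Real.log_injOn_pos (Set.mem_Ioi.2 (by positivity)) (Set.mem_Ioi.2 (by positivity)) h2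
  exact h q.den m q.pos hm0 (by exact_mod_cast h3)

/-- For all multiplicatively independent integers `a, b > 1` and all `k ≥ 0` the set
`𝒩_{a,k} \ 𝒩_{b,k}` is `D₂(Π⁰₃)`-complete.  More generally this holds for all real bases `α`, `β` with
`|α|, |β| > 1` if `log |α| / log |β|` is irrational, or if some real number `ξ` has `ξ α ^ n`
uniformly distributed modulo one and `ξ β ^ n` not. -/
theorem result :
    (∀ a b : ℕ, 1 < a → 1 < b → MulIndep a b → ∀ k : ℕ,
      IsDTwoComplete (NormalPoly (a : ℝ) k \ NormalPoly (b : ℝ) k)) ∧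
    (∀ α β : ℝ, 1 < |α| → 1 < |β| → Irrational (Real.log |α| / Real.log |β|) → ∀ k : ℕ,
      IsDTwoComplete (NormalPoly α k \ NormalPoly β k)) ∧
    (∀ α β : ℝ, 1 < |α| → 1 < |β| →
      (∃ ξ : ℝ, IsUD (fun n => ξ * α ^ n) ∧ ¬ IsUD (fun n => ξ * β ^ n)) → ∀ k : ℕ,
      IsDTwoComplete (NormalPoly α k \ NormalPoly β k)) := by
  refine ⟨fun a b ha hb h k => ?_, fun α β hα hβ hr k => complete_irrational α β hα hβ hr k,
    fun α β hα hβ hne k => ?_⟩
  · refine complete_irrational _ _ ?_ ?_ (irrational_of_mulIndep ha hb h) k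
    · rw [abs_of_pos (by positivity)]
      exact_mod_cast ha
    · rw [abs_of_pos (by positivity)]
      exact_mod_cast hb
  · by_cases hr : Irrational (Real.log |α| / Real.log |β|)
    · exact complete_irrational α β hα hβ hr k
    · obtain ⟨x0, hx1, hx2⟩ := hne
      rw [isUD_iff] at hx1 hx2
      obtain ⟨G, hG, hGw⟩ := Pool.Agent.H534R3.Rota.reduce_rational α β hα hβ hr x0 hx1 hx2
      exact complete_of_reduction α β k G hG hGw

end Pool.Agent.Results.MP_df8ac3_lc.PolynomialDifferences
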